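import Pool.Agent.H44.HP4

open MeasureTheory Pool.Agent.H44.FE

namespace Pool.Agent.Results.MP_77ae5d_pr.Q1False

theorem result : ∃ μ : Measure (Cfg 2), IsProbabilityMeasure μ ∧ Invariant μ ∧ FiniteEnergy μ ∧
    FKG μ ∧ (∀ᵐ ω ∂μ, Perc ω) ∧ ∀ᵐ ω ∂μ, ¬ Perc (half ω) :=
  hp_main

end Pool.Agent.Results.MP_77ae5d_pr.Q1False
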